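import Mathlib

/-!
Matroidal families of graphs: for `n ≥ m ^ 2 - m + 2` no matroidal family contains the complete
bipartite graph `K_{m,n}`.
-/

namespace Pool.Agent.Results.MP_41a700_co.NoLargeBipartite

open Set

/-- `P` is a matroidal family of graphs: a non-empty, isomorphism-closed class of finite connected
simple graphs such that for every finite simple graph `G` the edge sets of the subgraphs of `G`
which are isomorphic to members of `P` are exactly the circuits of a matroid on `E(G)`. -/
structure MatroidalFamily (P : ∀ V : Type, SimpleGraph V → Prop) : Prop where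
  nonempty : ∃ (V : Type) (G : SimpleGraph V), P V G
  finite : ∀ (V : Type) (G : SimpleGraph V), P V G → Finite V
  connected : ∀ (V : Type) (G : SimpleGraph V), P V G → G.Connected
  iso : ∀ (V W : Type) (G : SimpleGraph V) (H : SimpleGraph W), Nonempty (G ≃g H) →
    P V G → P W H
  matroidal : ∀ (V : Type) [Finite V] (G : SimpleGraph V), ∃ M : Matroid (Sym2 V),
    M.E = G.edgeSet ∧ ∀ C : Set (Sym2 V), M.IsCircuit C ↔
      ∃ H : G.Subgraph, P H.verts H.coe ∧ H.edgeSet = C

variable {V : Type}

/-- the edges between `X` and `Y` -/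
def cross (X Y : Set V) : Set (Sym2 V) := {e | ∃ x ∈ X, ∃ y ∈ Y, e = s(x, y)}

section circuit

variable {P : ∀ V : Type, SimpleGraph V → Prop}
  (hP : MatroidalFamily P) {m n : ℕ} (hK : P (Fin m ⊕ Fin n) (completeBipartiteGraph (Fin m) (Fin n)))
  {M : Matroid (Sym2 V)}
  (hC : ∀ C : Set (Sym2 V), M.IsCircuit C ↔
      ∃ H : (⊤ : SimpleGraph V).Subgraph, P H.verts H.coe ∧ H.edgeSet = C)

include hP hK hC

theorem isCircuit_cross (X Y : Finset V) (hXY : Disjoint X Y) (hX : X.card = m)
    (hY : Y.card = n) : M.IsCircuit (cross (X : Set V) (Y : Set V)) := by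
  rw [hC]
  let f : Fin m ⊕ Fin n → V :=
    Sum.elim (fun i => ((X.equivFinOfCardEq hX).symm i : V))
      (fun j => ((Y.equivFinOfCardEq hY).symm j : V))
  have hf : Function.Injective f := by
    rintro (i | i) (j | j) h
    · simp only [f, Sum.elim_inl] at h
      have := (X.equivFinOfCardEq hX).symm.injective (Subtype.ext h)
      rw [this]
    · exfalso
      simp only [f, Sum.elim_inl, Sum.elim_inr] at h
      exact Finset.disjoint_left.1 hXY ((X.equivFinOfCardEq hX).symm i).2
        (by rw [h]; exact ((Y.equivFinOfCardEq hY).symm j).2)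
    · exfalso
      simp only [f, Sum.elim_inl, Sum.elim_inr] at h
      exact Finset.disjoint_left.1 hXY ((X.equivFinOfCardEq hX).symm j).2
        (by rw [← h]; exact ((Y.equivFinOfCardEq hY).symm i).2)
    · simp only [f, Sum.elim_inr] at h
      have := (Y.equivFinOfCardEq hY).symm.injective (Subtype.ext h)
      rw [this]
  let c : SimpleGraph.Copy (completeBipartiteGraph (Fin m) (Fin n)) (⊤ : SimpleGraph V) :=
    ⟨⟨f, fun {a b} hab => by
      rw [SimpleGraph.top_adj]
      intro h
      exact hab.ne (hf h)⟩, hf⟩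
  refine ⟨c.toSubgraph, hP.iso _ _ _ _ ⟨c.isoToSubgraph⟩ hK, ?_⟩
  ext e
  induction e using Sym2.ind with
  | _ a b =>
    rw [SimpleGraph.Subgraph.mem_edgeSet]
    constructor
    · rintro ⟨u, v, huv, hu, hv⟩
      have huv' : (completeBipartiteGraph (Fin m) (Fin n)).Adj u v := huv
      rcases u with i | i <;> rcases v with j | j
      · simp [completeBipartiteGraph] at huv'
      · refine ⟨_, ((X.equivFinOfCardEq hX).symm i).2, _, ((Y.equivFinOfCardEq hY).symm j).2, ?_⟩
        rw [← hu, ← hv]; rfl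
      · refine ⟨_, ((X.equivFinOfCardEq hX).symm j).2, _, ((Y.equivFinOfCardEq hY).symm i).2, ?_⟩
        rw [← hu, ← hv, Sym2.eq_swap]; rfl
      · simp [completeBipartiteGraph] at huv'
    · rintro ⟨x, hx, y, hy, h⟩
      have h1 : f (Sum.inl (X.equivFinOfCardEq hX ⟨x, hx⟩)) = x := by simp [f]
      have h2 : f (Sum.inr (Y.equivFinOfCardEq hY ⟨y, hy⟩)) = y := by simp [f]
      rw [Sym2.eq_iff] at h
      rcases h with ⟨rfl, rfl⟩ | ⟨rfl, rfl⟩
      · exact ⟨Sum.inl (X.equivFinOfCardEq hX ⟨a, hx⟩), Sum.inr (Y.equivFinOfCardEq hY ⟨b, hy⟩),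
          by show (completeBipartiteGraph (Fin m) (Fin n)).Adj _ _; simp, h1, h2⟩
      · exact ⟨Sum.inr (Y.equivFinOfCardEq hY ⟨a, hy⟩), Sum.inl (X.equivFinOfCardEq hX ⟨b, hx⟩),
          by show (completeBipartiteGraph (Fin m) (Fin n)).Adj _ _; simp, h2, h1⟩

end circuit

/-- A circuit inside the union of the edges within `A` and the edges within the complement of `A`
lies on one side. -/
theorem one_side {P : ∀ V : Type, SimpleGraph V → Prop} (hP : MatroidalFamily P)
    (A : Set V) (H : (⊤ : SimpleGraph V).Subgraph) (hH : P H.verts H.coe)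
    (h : ∀ a b, H.Adj a b → (a ∈ A ↔ b ∈ A)) :
    (∀ a b, H.Adj a b → a ∈ A) ∨ (∀ a b, H.Adj a b → a ∉ A) := by
  by_contra hcon
  push Not at hcon
  obtain ⟨⟨a, b, hab, haA⟩, ⟨c, d, hcd, hcA⟩⟩ := hcon
  have hconn := hP.connected _ _ hH
  have ha : a ∈ H.verts := H.edge_vert hab
  have hc : c ∈ H.verts := H.edge_vert hcd
  have hr : H.coe.Reachable ⟨c, hc⟩ ⟨a, ha⟩ := hconn.preconnected _ _
  have key : ∀ x y : H.verts, H.coe.Reachable x y → ((x : V) ∈ A ↔ (y : V) ∈ A) := by
    rintro x y ⟨w⟩
    induction w with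
    | nil => exact Iff.rfl
    | cons hadj _ ih => exact (h _ _ hadj).trans ih
  exact haA ((key _ _ hr).1 hcA)


section main

/-- the vertex set of the host graph -/
abbrev VV (k l : ℕ) : Type := (Fin k ⊕ Fin (l + 1)) ⊕ (Fin (k + 1) ⊕ Fin l)

variable {k l : ℕ}

/-- the `k` fixed vertices -/
def FA (k l : ℕ) : Finset (VV k l) := Finset.univ.image (fun i : Fin k => Sum.inl (Sum.inl i))

/-- the other `l + 1` vertices on the left side -/
def FB (k l : ℕ) : Finset (VV k l) :=
  Finset.univ.image (fun i : Fin (l + 1) => Sum.inl (Sum.inr i))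

theorem card_FA : (FA k l).card = k := by
  rw [FA, Finset.card_image_of_injective]
  · simp
  · intro i j h
    simpa using h

theorem card_FB : (FB k l).card = l + 1 := by
  rw [FB, Finset.card_image_of_injective]
  · simp
  · intro i j h
    simpa using h

theorem disj_FA_FB : Disjoint (FA k l) (FB k l) := by
  rw [Finset.disjoint_left]
  intro x hx hy
  simp only [FA, FB, Finset.mem_image, Finset.mem_univ, true_and] at hx hy
  obtain ⟨i, rfl⟩ := hx
  obtain ⟨j, hj⟩ := hy
  simp at hj

variable {P : ∀ V : Type, SimpleGraph V → Prop}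
  (hP : MatroidalFamily P)
  (hK : P (Fin (k + 1) ⊕ Fin (l + 1)) (completeBipartiteGraph (Fin (k + 1)) (Fin (l + 1))))
  {M : Matroid (Sym2 (VV k l))} (hE : M.E = (⊤ : SimpleGraph (VV k l)).edgeSet)
  (hC : ∀ C : Set (Sym2 (VV k l)), M.IsCircuit C ↔
      ∃ H : (⊤ : SimpleGraph (VV k l)).Subgraph, P H.verts H.coe ∧ H.edgeSet = C)

include hP hK hC

/-- the last edge of a `K_{k+1,l+1}` is in the closure of the others -/
theorem last_edge (T : Set (Sym2 (VV k l))) (u v : VV k l) (huv : u ≠ v) (W : Finset (VV k l))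
    (hu : u ∉ FA k l) (hv : v ∉ FA k l) (hWA : Disjoint (FA k l) W) (huW : u ∉ W) (hvW : v ∉ W)
    (hW : W.card = l)
    (h1 : ∀ a ∈ FA k l, s(a, v) ∈ M.closure T) (h2 : ∀ w ∈ W, s(u, w) ∈ M.closure T)
    (h3 : ∀ a ∈ FA k l, ∀ w ∈ W, s(a, w) ∈ M.closure T) : s(u, v) ∈ M.closure T := by
  classical
  have hcirc : M.IsCircuit (cross ((insert u (FA k l) : Finset (VV k l)) : Set (VV k l))
      ((insert v W : Finset (VV k l)) : Set (VV k l))) := by
    apply isCircuit_cross hP hK hC
    · rw [Finset.disjoint_insert_left, Finset.disjoint_insert_right]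
      refine ⟨?_, hv, hWA⟩
      rw [Finset.mem_insert, not_or]
      exact ⟨huv, huW⟩
    · rw [Finset.card_insert_of_notMem hu, card_FA]
    · rw [Finset.card_insert_of_notMem hvW, hW]
  have hmem : s(u, v) ∈ cross ((insert u (FA k l) : Finset (VV k l)) : Set (VV k l))
      ((insert v W : Finset (VV k l)) : Set (VV k l)) :=
    ⟨u, by simp, v, by simp, rfl⟩
  have h4 := hcirc.mem_closure_sdiff_singleton_of_mem hmem
  have h5 : (cross ((insert u (FA k l) : Finset (VV k l)) : Set (VV k l))
      ((insert v W : Finset (VV k l)) : Set (VV k l))) \ {s(u, v)} ⊆ M.closure T := by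
    rintro e ⟨⟨x, hx, y, hy, rfl⟩, hne⟩
    rw [Finset.mem_coe, Finset.mem_insert] at hx hy
    rcases hx with rfl | hx
    · rcases hy with rfl | hy
      · exact absurd rfl hne
      · exact h2 y hy
    · rcases hy with rfl | hy
      · exact h1 x hx
      · exact h3 x hx y hy
  have h6 := M.closure_subset_closure_of_subset_closure h5
  exact h6 h4

omit hP hK hC in
theorem inr_notMem_FA (x : Fin (k + 1) ⊕ Fin l) : (Sum.inr x : VV k l) ∉ FA k l := by
  simp [FA]

omit hP hK hC in
theorem inr_notMem_FB (x : Fin (k + 1) ⊕ Fin l) : (Sum.inr x : VV k l) ∉ FB k l := by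
  simp [FB]

omit hP hK hC in
theorem inl_mem (x : Fin k ⊕ Fin (l + 1)) : (Sum.inl x : VV k l) ∈ FA k l ∨
    (Sum.inl x : VV k l) ∈ FB k l := by
  rcases x with x | x
  · left; simp [FA]
  · right; simp [FB]

/-- the edges inside the left part -/
def leftE (k l : ℕ) : Set (Sym2 (VV k l)) :=
  {e | ∃ x y : Fin k ⊕ Fin (l + 1), x ≠ y ∧ e = s(Sum.inl x, Sum.inl y)}

/-- the edges between `FA` and the right part -/
def starE (k l : ℕ) : Set (Sym2 (VV k l)) :=
  (fun p : Fin k × (Fin (k + 1) ⊕ Fin l) => (s(Sum.inl (Sum.inl p.1), Sum.inr p.2) : Sym2 (VV k l)))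
    '' Set.univ

/-- a `K_{k+1,l}` in the right part -/
def rightE (k l : ℕ) : Set (Sym2 (VV k l)) :=
  (fun p : Fin (k + 1) × Fin l => (s(Sum.inr (Sum.inl p.1), Sum.inr (Sum.inr p.2)) : Sym2 (VV k l)))
    '' Set.univ

/-- all edges are spanned by the left edges and the stars -/
theorem spans (T : Set (Sym2 (VV k l))) (hT1 : leftE k l ⊆ M.closure T)
    (hT2 : starE k l ⊆ M.closure T) (x y : VV k l) (hxy : x ≠ y) : s(x, y) ∈ M.closure T := by
  classical
  have hstar : ∀ a ∈ FA k l, ∀ v, s(a, (Sum.inr v : VV k l)) ∈ M.closure T := by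
    intro a ha v
    simp only [FA, Finset.mem_image, Finset.mem_univ, true_and] at ha
    obtain ⟨i, rfl⟩ := ha
    exact hT2 ⟨(i, v), Set.mem_univ _, rfl⟩
  have hleft : ∀ a ∈ FA k l, ∀ b ∈ FB k l, s(a, b) ∈ M.closure T := by
    intro a ha b hb
    simp only [FA, FB, Finset.mem_image, Finset.mem_univ, true_and] at ha hb
    obtain ⟨i, rfl⟩ := ha
    obtain ⟨j, rfl⟩ := hb
    exact hT1 ⟨_, _, by simp, rfl⟩
  -- edges from the right part to FB
  have hB : ∀ c ∈ FB k l, ∀ v, s(c, (Sum.inr v : VV k l)) ∈ M.closure T := by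
    intro c hc v
    have hcA : c ∉ FA k l := fun h => Finset.disjoint_left.1 disj_FA_FB h hc
    apply last_edge hP hK hC T c (Sum.inr v) _ ((FB k l).erase c) hcA (inr_notMem_FA v)
    · exact Finset.disjoint_of_subset_right (Finset.erase_subset _ _) disj_FA_FB
    · simp
    · intro h
      exact inr_notMem_FB v (Finset.mem_of_mem_erase h)
    · rw [Finset.card_erase_of_mem hc, card_FB]; rfl
    · intro a ha
      exact hstar a ha v
    · intro w hw
      have hw' := Finset.mem_of_mem_erase hw
      have hne : c ≠ w := (Finset.ne_of_mem_erase hw).symm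
      simp only [FB, Finset.mem_image, Finset.mem_univ, true_and] at hc hw'
      obtain ⟨i, rfl⟩ := hc
      obtain ⟨j, rfl⟩ := hw'
      refine hT1 ⟨_, _, ?_, rfl⟩
      intro h
      exact hne (by rw [h])
    · intro a ha w hw
      exact hleft a ha w (Finset.mem_of_mem_erase hw)
    · rintro rfl
      exact inr_notMem_FB v hc
  have hlr : ∀ a v, s((Sum.inl a : VV k l), (Sum.inr v : VV k l)) ∈ M.closure T := by
    intro a v
    rcases inl_mem (k := k) (l := l) a with h | h
    · exact hstar _ h v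
    · exact hB _ h v
  rcases x with x | x <;> rcases y with y | y
  · exact hT1 ⟨x, y, fun h => hxy (by rw [h]), rfl⟩
  · exact hlr x y
  · rw [Sym2.eq_swap]; exact hlr y x
  · have hc0 : (Sum.inl (Sum.inr 0) : VV k l) ∈ FB k l := by simp [FB]
    apply last_edge hP hK hC T (Sum.inr x) (Sum.inr y) hxy
      ((FB k l).erase (Sum.inl (Sum.inr 0))) (inr_notMem_FA x) (inr_notMem_FA y)
    · exact Finset.disjoint_of_subset_right (Finset.erase_subset _ _) disj_FA_FB
    · intro h
      exact inr_notMem_FB x (Finset.mem_of_mem_erase h)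
    · intro h
      exact inr_notMem_FB y (Finset.mem_of_mem_erase h)
    · rw [Finset.card_erase_of_mem hc0, card_FB]; rfl
    · intro a ha
      exact hstar a ha y
    · intro w hw
      rw [Sym2.eq_swap]
      exact hB w (Finset.mem_of_mem_erase hw) x
    · intro a ha w hw
      exact hleft a ha w (Finset.mem_of_mem_erase hw)

theorem rightE_indep : M.Indep (rightE k l) := by
  classical
  -- a circuit `K_{k+1,l+1}` containing it
  let X : Finset (VV k l) := Finset.univ.image (fun i : Fin (k + 1) => Sum.inr (Sum.inl i))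
  let Y : Finset (VV k l) := insert (Sum.inl (Sum.inr 0))
    (Finset.univ.image (fun i : Fin l => Sum.inr (Sum.inr i)))
  have hcirc : M.IsCircuit (cross (X : Set (VV k l)) (Y : Set (VV k l))) := by
    apply isCircuit_cross hP hK hC
    · rw [Finset.disjoint_left]
      intro x hx hy
      simp only [X, Y, Finset.mem_image, Finset.mem_univ, true_and, Finset.mem_insert] at hx hy
      obtain ⟨i, rfl⟩ := hx
      rcases hy with hy | ⟨j, hj⟩
      · simp at hy
      · simp at hj
    · rw [Finset.card_image_of_injective]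
      · simp
      · intro i j h
        simpa using h
    · rw [Finset.card_insert_of_notMem]
      · rw [Finset.card_image_of_injective]
        · simp
        · intro i j h
          simpa using h
      · simp
  apply hcirc.ssubset_indep
  refine ⟨?_, ?_⟩
  · rintro _ ⟨⟨i, j⟩, -, rfl⟩
    exact ⟨Sum.inr (Sum.inl i), by simp [X], Sum.inr (Sum.inr j), by simp [Y], rfl⟩
  · intro h
    have h1 : s((Sum.inr (Sum.inl 0) : VV k l), Sum.inl (Sum.inr 0)) ∈
        cross (X : Set (VV k l)) (Y : Set (VV k l)) :=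
      ⟨_, by simp [X], _, by simp [Y], rfl⟩
    obtain ⟨⟨i, j⟩, -, h2⟩ := h h1
    simp at h2

omit hP hK hC in
theorem encard_rightE : (rightE k l).encard = ((k + 1) * l : ℕ) := by
  unfold rightE
  rw [Function.Injective.encard_image]
  · rw [Set.encard_univ]
    simp
  · rintro ⟨i, j⟩ ⟨i', j'⟩ h
    simpa using h

omit hP hK hC in
theorem encard_starE_le : (starE k l).encard ≤ (k * (k + 1 + l) : ℕ) := by
  unfold starE
  refine (Set.encard_image_le _ _).trans ?_
  rw [Set.encard_univ]
  simp

include hE in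
theorem main_ineq : (k + 1) * l ≤ k * (k + 1 + l) := by
  classical
  have hleftE : leftE k l ⊆ M.E := by
    rw [hE]
    rintro _ ⟨x, y, hxy, rfl⟩
    rw [SimpleGraph.mem_edgeSet, SimpleGraph.top_adj]
    intro h
    exact hxy (by simpa using h)
  have hstarE : starE k l ⊆ M.E := by
    rw [hE]
    rintro _ ⟨p, -, rfl⟩
    simp
  obtain ⟨I, hI⟩ := M.exists_isBasis (leftE k l) hleftE
  have hr := rightE_indep hP hK hC (k := k) (l := l) (M := M)
  have hIl : I ⊆ leftE k l := hI.subset
  -- the union is independent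
  have hJ : M.Indep (I ∪ rightE k l) := by
    rw [Matroid.indep_iff_forall_subset_not_isCircuit
      (Set.union_subset hI.indep.subset_ground hr.subset_ground)]
    intro C hCs hCc
    obtain ⟨H, hPH, rfl⟩ := (hC C).1 hCc
    have hside : ∀ a b, H.Adj a b → (a ∈ Set.range (Sum.inl : _ → VV k l) ↔
        b ∈ Set.range (Sum.inl : _ → VV k l)) := by
      intro a b hab
      have hmem : s(a, b) ∈ I ∪ rightE k l := hCs (by
        rw [SimpleGraph.Subgraph.mem_edgeSet]; exact hab)
      rcases hmem with hmem | hmem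
      · obtain ⟨x, y, -, hxy⟩ := hIl hmem
        rw [Sym2.eq_iff] at hxy
        rcases hxy with ⟨rfl, rfl⟩ | ⟨rfl, rfl⟩ <;> simp
      · obtain ⟨⟨i, j⟩, -, hij⟩ := hmem
        rw [Sym2.eq_iff] at hij
        rcases hij with ⟨rfl, rfl⟩ | ⟨rfl, rfl⟩ <;> simp
    rcases one_side hP (Set.range (Sum.inl : _ → VV k l)) H hPH hside with h | h
    · apply hCc.not_indep
      apply hI.indep.subset
      intro e he
      rcases hCs he with h1 | h1
      · exact h1
      · exfalso
        obtain ⟨⟨i, j⟩, -, rfl⟩ := h1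
        have := h _ _ ((SimpleGraph.Subgraph.mem_edgeSet).1 he)
        simp at this
    · apply hCc.not_indep
      apply hr.subset
      intro e he
      rcases hCs he with h1 | h1
      · exfalso
        obtain ⟨x, y, -, rfl⟩ := hIl h1
        have := h _ _ ((SimpleGraph.Subgraph.mem_edgeSet).1 he)
        simp at this
      · exact h1
  -- spanning
  have hcl : M.E ⊆ M.closure (I ∪ starE k l) := by
    have h1 : leftE k l ⊆ M.closure (I ∪ starE k l) :=
      hI.subset_closure.trans (M.closure_subset_closure Set.subset_union_left)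
    have h2 : starE k l ⊆ M.closure (I ∪ starE k l) :=
      (M.subset_closure_of_subset' Set.subset_union_right hstarE)
    intro e he
    rw [hE] at he
    induction e using Sym2.ind with
    | _ x y =>
      apply spans hP hK hC _ h1 h2 x y
      rw [SimpleGraph.mem_edgeSet, SimpleGraph.top_adj] at he
      exact he
  have hdisj : Disjoint I (rightE k l) := by
    rw [Set.disjoint_left]
    intro e he1 he2
    obtain ⟨x, y, -, rfl⟩ := hIl he1
    obtain ⟨⟨i, j⟩, -, hij⟩ := he2
    simp at hij
  have h3 : (I ∪ rightE k l).encard ≤ (I ∪ starE k l).encard := by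
    calc (I ∪ rightE k l).encard ≤ M.eRk (M.closure (I ∪ starE k l)) :=
          hJ.encard_le_eRk_of_subset (hJ.subset_ground.trans hcl)
      _ = M.eRk (I ∪ starE k l) := M.eRk_closure_eq _
      _ ≤ _ := M.eRk_le_encard _
  rw [Set.encard_union_eq hdisj] at h3
  have h4 := h3.trans (Set.encard_union_le _ _)
  have hIfin : I.encard ≠ ⊤ := (Set.toFinite I).encard_lt_top.ne
  have h5 : (rightE k l).encard ≤ (starE k l).encard :=
    (ENat.add_le_add_iff_left hIfin).1 h4
  rw [encard_rightE] at h5
  have h6 := h5.trans encard_starE_le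
  exact_mod_cast h6

end main

/-- If `1 ≤ m` and `n ≥ m ^ 2 - m + 2` then no matroidal family contains `K_{m,n}`; in particular
no matroidal family contains `K_{3,8}`. -/
theorem result (m n : ℕ) (hm : 1 ≤ m) (hn : m ^ 2 + 2 ≤ n + m) :
    ¬ ∃ P : ∀ V : Type, SimpleGraph V → Prop, MatroidalFamily P ∧
      P (Fin m ⊕ Fin n) (completeBipartiteGraph (Fin m) (Fin n)) := by
  rintro ⟨P, hP, hK⟩
  obtain ⟨k, rfl⟩ : ∃ k, m = k + 1 := ⟨m - 1, by omega⟩
  have hn1 : 1 ≤ n := by nlinarith
  obtain ⟨l, rfl⟩ : ∃ l, n = l + 1 := ⟨n - 1, by omega⟩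
  obtain ⟨M, hE, hC⟩ := hP.matroidal (VV k l) ⊤
  have := main_ineq hP hK hE hC
  nlinarith

end Pool.Agent.Results.MP_41a700_co.NoLargeBipartite
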